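import Pool.Agent.H203.XFin
import Pool.Agent.NPC.Dec

/-!
# Deterministic recognition of dual-critical graphs with few vertices of large degree

For every fixed `k` there is a deterministic polynomial-time algorithm which decides dual-criticality
for all multigraphs in which all but at most `k` vertices are joined by an odd number of edges to at
most four other vertices.

Outline of the proof.

1. Let `c` be the adjacency modulo 2, and let `p` be a weighting of the vertices with values in a field
of characteristic two.  The weighting is nondegenerate if the system `∑_v x_uv = 0`,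
`(p_u + p_v) x_uv = f_u + f_v` (`x` symmetric and supported on the edges) has only the solutions
`x = 0`, `f` constant.  A graph is dual-critical if and only if it has a nondegenerate weighting over
some field of characteristic two (`dc_of_nd`, `nd_of_dc`): one direction contracts a vertex into a suitable
neighbour, the other one adds a vertex of odd degree.
2. The system is the kernel of an alternating matrix `∑_u y_u (cut_u ∧ ε_u) + ∑_v p_v B_v`, in which
`B_v` has rank at most two if `v` has degree at most four (`nd_of_triv`, `triv_of_nd`).
3. For alternating matrices `A(x) = A_0 + ∑_i x_i (a_i ∧ b_i)` over a large finite field a local search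
for the sum of the nullities of the bordered matrices
`[[A(x), C_k], [C_j^T, 0]]`, `C_j = (a_j, b_j)`, which changes at most two coordinates at a time, ends at
an `x` for which the rank of `A(x)` is maximum (`stuck_max`, `rank_of_min0`).
4. The fields are `𝔽₂[t]/(f)`, where the algorithm tries all monic `f` of the right degree, and all values
of `p` at the vertices of degree more than four.
-/

namespace Pool.Agent.Results.MP_bae0ed_lc.FewVerticesOfLargeDegree

open Pool.Agent.NPC Pool.Agent.H203

/-- the number of edges joining `u` and `v`, in the graph with vertices `0, …, M.length - 1` given by the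
matrix `M` of edge multiplicities -/
def mult (M : List (List ℕ)) (u v : ℕ) : ℕ := (M.getD u []).getD v 0

/-- `M` is a matrix of edge multiplicities of a loopless multigraph: square, symmetric, zero diagonal -/
def IsGraph (M : List (List ℕ)) : Prop :=
  (∀ r ∈ M, r.length = M.length) ∧ (∀ u v, mult M u v = mult M v u) ∧ ∀ u, mult M u u = 0

/-- Dual-critical graphs: the vertices can be ordered `l = v_1, …, v_n` so that each `v_i`, `i ≥ 2`, is
joined to the earlier vertices by an odd number of edges (the graph has at least one vertex). -/
def DualCritical (M : List (List ℕ)) : Prop :=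
  ∃ l : List ℕ, l ≠ [] ∧ l.Perm (List.range M.length) ∧ ∀ i, 0 < i → i < l.length →
    Odd (∑ j ∈ Finset.range i, mult M (l.getD i 0) (l.getD j 0))

/-- the vertices joined to `v` by an odd number of edges -/
def oddNeighbours (M : List (List ℕ)) (v : ℕ) : Finset ℕ :=
  (Finset.range M.length).filter (fun w => Odd (mult M v w))

/-- the vertices with more than four odd neighbours -/
def large (M : List (List ℕ)) : Finset ℕ :=
  (Finset.range M.length).filter (fun v => 4 < (oddNeighbours M v).card)

/-- the input size: number of vertices plus the binary lengths of all multiplicities -/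
def inputSize (M : List (List ℕ)) : ℕ :=
  M.length + ∑ u ∈ Finset.range M.length, ∑ v ∈ Finset.range M.length, (mult M u v).size

theorem isGraph_iff (M : List (List ℕ)) : IsGraph M ↔ WF M :=
  ⟨fun h => ⟨h.1, h.2.1, h.2.2⟩, fun h => ⟨h.sq, h.sym, h.diag⟩⟩

theorem exc_length {M : List (List ℕ)} (hM : WF M) : (exc M).length = (large M).card := by
  have h1 : (exc M).toFinset = large M := by
    ext v
    rw [List.mem_toFinset, exc, List.mem_filter, large, Finset.mem_filter, List.mem_range,
      Finset.mem_range, decide_eq_true_iff]
    constructor
    · rintro ⟨h, h2⟩
      refine ⟨h, ?_⟩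
      rw [dgX_eq M hM v h] at h2
      exact h2
    · rintro ⟨h, h2⟩
      refine ⟨h, ?_⟩
      rw [dgX_eq M hM v h]
      exact h2
  rw [← h1, List.toFinset_card_of_nodup]
  exact List.nodup_range.filter _

theorem size_bound : ∃ q : Polynomial ℕ, ∀ M : List (List ℕ), IsGraph M →
    (bits M).length ≤ q.eval (inputSize M) := by
  refine ⟨Polynomial.X * ((Polynomial.X * (4 * Polynomial.X + 2) + 1) + 1) + 1 + 1, ?_⟩
  intro M hM
  set S := inputSize M with hS
  have hn : M.length ≤ S := Nat.le_add_right _ _
  have hentry : ∀ r ∈ M, ∀ a ∈ r, sz a ≤ 4 * S + 1 := by
    intro r hr a ha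
    obtain ⟨u, hu, rfl⟩ := List.getElem_of_mem hr
    obtain ⟨v, hv, rfl⟩ := List.getElem_of_mem ha
    have hv' : v < M.length := by rw [← hM.1 _ hr]; exact hv
    have h1 : (mult M u v).size ≤ ∑ v ∈ Finset.range M.length, (mult M u v).size :=
      Finset.single_le_sum (f := fun v => (mult M u v).size) (fun _ _ => Nat.zero_le _)
        (Finset.mem_range.2 hv')
    have h2 : ∑ v ∈ Finset.range M.length, (mult M u v).size ≤
        ∑ u ∈ Finset.range M.length, ∑ v ∈ Finset.range M.length, (mult M u v).size :=
      Finset.single_le_sum (f := fun u => ∑ v ∈ Finset.range M.length, (mult M u v).size)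
        (fun _ _ => Nat.zero_le _) (Finset.mem_range.2 hu)
    have h3 : mult M u v = M[u][v] := by
      rw [mult, List.getD_eq_getElem _ _ hu, List.getD_eq_getElem _ _ hv]
    rw [h3] at h1
    have h4 := sz_nat_le (M[u][v])
    have h5 : (M[u][v]).size ≤ S := by
      rw [hS, inputSize]
      omega
    omega
  have hrow : ∀ r ∈ M, sz r ≤ S * (4 * S + 2) + 1 := by
    intro r hr
    have h1 := sz_le_length_mul r (4 * S + 1) (hentry r hr)
    rw [hM.1 r hr] at h1
    have h2 := Nat.mul_le_mul_right (4 * S + 1 + 1) hn
    have h3 : S * (4 * S + 1 + 1) = S * (4 * S + 2) := rfl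
    omega
  have h1 := sz_le_length_mul M (S * (4 * S + 2) + 1) hrow
  have h2 := Nat.mul_le_mul_right (S * (4 * S + 2) + 1 + 1) hn
  rw [bits_length]
  simp only [Polynomial.eval_add, Polynomial.eval_mul, Polynomial.eval_X, Polynomial.eval_one,
    Polynomial.eval_ofNat]
  omega

/-- **Deterministic recognition of dual-critical graphs with few vertices of large degree.**  For every
`k` there is a polynomial-time computable function `f` on bit strings such that for every list `M` of
lists of naturals, `f (bits M)` is (the code of) the truth value of the statement: `M` is the matrix of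
edge multiplicities of a graph which has at most `k` vertices with more than four odd neighbours, and
which is dual-critical.  The length of the code of a graph is bounded by a polynomial in its input
size. -/
theorem result :
    (∀ k : ℕ, ∃ f : List Bool → List Bool, PolyTime f ∧ ∀ M : List (List ℕ),
      (f (bits M) = bits true ↔ IsGraph M ∧ (large M).card ≤ k ∧ DualCritical M) ∧
      (f (bits M) = bits true ∨ f (bits M) = bits false)) ∧
    (∃ q : Polynomial ℕ, ∀ M : List (List ℕ), IsGraph M →
      (bits M).length ≤ q.eval (inputSize M)) := by
  refine ⟨fun k => ⟨fun x => bits ((unbits (List (List ℕ)) x).elim false (fun M => decX k M)), ?_,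
    fun M => ⟨?_, ?_⟩⟩, size_bound⟩
  · apply polyTime_bits
    refine NPC.Poly.optElim (o := fun x => unbits (List (List ℕ)) x) (h := fun _ M => decX k M)
      poly_unbits (NPC.Poly.const false) ?_
    exact poly_decX k (NPC.Poly.snd NPC.Poly.id)
  · simp only [unbits_bits, Option.elim]
    have hinj : ∀ b : Bool, bits b = bits true ↔ b = true := by
      intro b
      cases b
      · constructor
        · intro h
          exact absurd h (by decide)
        · intro h
          exact absurd h (by decide)
      · simp
    rw [hinj, decX_iff, isGraph_iff, dc_iff]
    constructor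
    · rintro ⟨h1, _, h3, h4⟩
      rw [exc_length h1] at h3
      exact ⟨h1, h3, h4⟩
    · rintro ⟨h1, h3, h4⟩
      refine ⟨h1, ?_, ?_, h4⟩
      · obtain ⟨l, hl, hp, _⟩ := h4
        have h5 := hp.length_eq
        rw [List.length_range] at h5
        rw [← h5]
        exact List.length_pos_of_ne_nil hl
      · rw [exc_length h1]
        exact h3
  · simp only [unbits_bits, Option.elim]
    cases decX k M
    · exact Or.inr rfl
    · exact Or.inl rfl

end Pool.Agent.Results.MP_bae0ed_lc.FewVerticesOfLargeDegree
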